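import Pool.Agent.Helper22.SL.Core

/-!
# T5: the conditional scheme

Labels `i` with targets `T w i` which depend only on the low keys `K0`; below them there are the
static levels of a `Pr`, whose keys are not in `K0`.  If outside a bad event every value is the
target of at most `CI` labels, and if for fixed low keys the static levels have fewer than `N`
hits with different targets (outside an event of probability `δ`), then fewer than `CI * N`
labels are hit.
-/

namespace Pool.Agent.Helper1.T5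

open Finset Pool.Agent.Helper22.SL Pool.Agent.Helper27.T4 Pool.Agent.Helper29.T4
  Pool.Agent.Helper22.HW

variable {κ : Type*} {Mk : κ → ℕ} {P : Pr κ}

/-- the target `t` is hit: data of the levels and windows -/
def HitT (P : Pr κ) (w : κ → ℕ) (B B' : Finset ℕ) (t : ℕ) : Prop :=
  ∃ (d : ℕ → Lv) (b b' : ℕ),
    (∀ s < P.h, Lok P w univ univ s (TT (fun _ => t) (0, d) s) (d s)) ∧ b ∈ B ∧ b' ∈ B' ∧
      P.M * P.L P.h * b + P.M' * P.L P.h * b' = TT (fun _ => t) (0, d) P.h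

theorem TT_const_eq (X : ℕ → ℕ) (i : ℕ) (d : ℕ → Lv) (s : ℕ) :
    TT (fun _ => X i) (0, d) s = TT X (i, d) s := by
  induction s with
  | zero => rfl
  | succ s ih => simp only [TT, ih]

/-- a hit in the sense of the static block -/
theorem HitT.hit {w : κ → ℕ} {B B' : Finset ℕ} {X : ℕ → ℕ} {I i : ℕ} (hi : i < I)
    (h : HitT P w B B' (X i)) : ∃ (d : ℕ → Lv) (b b' : ℕ), Hit P w I X B B' ((i, d), (b, b')) := by
  obtain ⟨d, b, b', h1, h2, h3, h4⟩ := h
  refine ⟨d, b, b', ⟨hi, fun t ht => ?_, h2, h3, ?_⟩⟩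
  · have := h1 t ht
    rw [TT_const_eq] at this
    exact this
  · rw [TT_const_eq] at h4
    exact h4

/-- only the keys of the levels matter -/
theorem Lok_congr {w w' : κ → ℕ} {N N' : Finset (Fin 3)} {r t : ℕ} {ℓ : Lv}
    (hw : ∀ i, ∀ y ∈ P.Y r, w (P.key r i y) = w' (P.key r i y) ∧
      w (P.key' r i y) = w' (P.key' r i y))
    (h : Lok P w N N' r t ℓ) : Lok P w' N N' r t ℓ where
  y := h.y
  y' := h.y'
  lt := h.lt
  lt' := h.lt'
  dvd := h.dvd
  dvd' := h.dvd'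
  cmp i hi := by rw [h.cmp i hi, (hw i _ h.y).1]
  cmp' i hi := by rw [h.cmp' i hi, (hw i _ h.y').2]
  le := h.le
  tdvd := h.tdvd

theorem HitT_congr {w w' : κ → ℕ} {B B' : Finset ℕ} {t : ℕ}
    (hw : ∀ r < P.h, ∀ i, ∀ y ∈ P.Y r, w (P.key r i y) = w' (P.key r i y) ∧
      w (P.key' r i y) = w' (P.key' r i y))
    (h : HitT P w B B' t) : HitT P w' B B' t := by
  obtain ⟨d, b, b', h1, h2, h3, h4⟩ := h
  exact ⟨d, b, b', fun s hs => Lok_congr (hw s hs) (h1 s hs), h2, h3, h4⟩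

/-- enumeration of a finite set of targets -/
theorem exists_enum (S : Finset ℕ) : ∃ X : ℕ → ℕ, (∀ i < S.card, X i ∈ S) ∧
    (∀ i < S.card, ∀ j < S.card, X i = X j → i = j) ∧ ∀ t ∈ S, ∃ i < S.card, X i = t := by
  classical
  refine ⟨fun i => if h : i < S.card then S.orderEmbOfFin rfl ⟨i, h⟩ else 0, ?_, ?_, ?_⟩
  · intro i hi
    simp only [dif_pos hi]
    exact Finset.orderEmbOfFin_mem _ _ _
  · intro i hi j hj h
    simp only [dif_pos hi, dif_pos hj] at h
    have := (S.orderEmbOfFin rfl).injective h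
    simpa using this
  · intro t ht
    have : t ∈ Set.range (S.orderEmbOfFin rfl) := by
      rw [Finset.range_orderEmbOfFin]
      exact ht
    obtain ⟨j, hj⟩ := this
    exact ⟨j.1, j.2, by simp only [dif_pos j.2]; exact hj⟩

/-- many hit labels give many hits with different targets -/
theorem many_of_labels {ι : Type*} {w : κ → ℕ} {B B' : Finset ℕ} {H : Finset ι} {T : ι → ℕ}
    {CI N I : ℕ} {X : ℕ → ℕ} (hX : ∀ i ∈ H, ∃ j < I, X j = T i)
    (hm : ∀ t, ((H.filter (fun i => T i = t)).card) ≤ CI) (hc : CI * N < H.card)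
    (hit : ∀ i ∈ H, HitT P w B B' (T i)) : Many P w I X B B' (N + 1) := by
  classical
  have h1 : H.card ≤ ∑ t ∈ H.image T, ((H.filter (fun i => T i = t)).card) :=
    (Finset.card_eq_sum_card_fiberwise (fun i hi => Finset.mem_image_of_mem T hi)).le
  have h2 : H.card ≤ (H.image T).card * CI := by
    refine h1.trans ((Finset.sum_le_card_nsmul _ _ CI fun t _ => hm t).trans ?_)
    simp
  have h3 : N + 1 ≤ (H.image T).card := by
    by_contra hcon
    have : (H.image T).card ≤ N := by omega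
    have := Nat.mul_le_mul_right CI this
    rw [mul_comm N CI] at this
    omega
  obtain ⟨S, hS, hSc⟩ := Finset.exists_subset_card_eq h3
  have h4 : ∀ t ∈ S, ∃ z : Dt × (ℕ × ℕ), Hit P w I X B B' z ∧ X z.1.1 = t := by
    intro t ht
    obtain ⟨i, hi, rfl⟩ := Finset.mem_image.1 (hS ht)
    obtain ⟨j, hj, hj'⟩ := hX i hi
    obtain ⟨d, b, b', hh⟩ := HitT.hit (X := X) hj (hj' ▸ hit i hi)
    exact ⟨((j, d), (b, b')), hh, hj'⟩
  choose! f hf using h4
  refine ⟨S.image f, ?_, ?_, ?_⟩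
  · rw [Finset.card_image_of_injOn, hSc]
    intro a ha b hb hab
    rw [← (hf a ha).2, ← (hf b hb).2, hab]
  · intro x hx
    obtain ⟨t, ht, rfl⟩ := Finset.mem_image.1 hx
    exact (hf t ht).1
  · intro x hx y hy hxy
    obtain ⟨t, ht, rfl⟩ := Finset.mem_image.1 hx
    obtain ⟨u, hu, rfl⟩ := Finset.mem_image.1 hy
    have : t = u := by rw [← (hf t ht).2, ← (hf u hu).2, hxy]
    rw [this]

variable [DecidableEq κ]

/-- **THE CONDITIONAL SCHEME** -/
theorem cond_scheme {ι : Type*} {K0 K : Finset κ} (hK0 : K0 ⊆ K)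
    (Lab : (κ → ℕ) → Finset ι) (T : (κ → ℕ) → ι → ℕ)
    (hdep : ∀ w w' : κ → ℕ, (∀ k ∈ K0, w k = w' k) →
      Lab w = Lab w' ∧ ∀ i ∈ Lab w, T w i = T w' i)
    (hkey : ∀ r < P.h, ∀ i, ∀ y ∈ P.Y r, P.key r i y ∉ K0 ∧ P.key' r i y ∉ K0)
    (Good : (κ → ℕ) → Prop) {ε δ : ℝ} (hδ : 0 ≤ δ)
    (hgood : PrG Mk K0 (fun w => ¬ Good w) ε) {CI N : ℕ}
    (hmult : ∀ w, Good w → ∀ t, ((Lab w).filter (fun i => T w i = t)).card ≤ CI)
    (B B' : Finset ℕ)
    (hstat : ∀ w, Good w → ∀ (I : ℕ) (X : ℕ → ℕ),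
      I = ((Lab w).image (T w)).card → (∀ i < I, X i ∈ (Lab w).image (T w)) →
      (∀ i < I, ∀ j < I, X i = X j → i = j) →
      (∀ t ∈ (Lab w).image (T w), ∃ i < I, X i = t) →
      PrG Mk (K \ K0) (fun w' => Many P w' I X B B' (N + 1)) δ) :
    PrG Mk K (fun w => ∃ H ⊆ Lab w, CI * N < H.card ∧ ∀ i ∈ H, HitT P w B B' (T w i))
      (ε + δ) := by
  classical
  refine PrG_cond_bad hK0 (A := fun w => ¬ Good w) hδ hgood ?_
  intro r0 _ hg
  rw [not_not] at hg
  set w0 := ext K0 r0 with hw0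
  obtain ⟨X, h1, h2, h3⟩ := exists_enum ((Lab w0).image (T w0))
  refine PrG_mono ?_ le_rfl (hstat w0 hg _ X rfl h1 h2 h3)
  intro r1 _ hB
  obtain ⟨H, hH, hc, hit⟩ := hB
  have hagree : ∀ k ∈ K0, glue K0 w0 (ext (K \ K0) r1) k = w0 k := fun k hk =>
    glue_mem _ _ _ hk
  obtain ⟨hL, hT⟩ := hdep _ _ hagree
  have hH0 : H ⊆ Lab w0 := hL ▸ hH
  have hTT : ∀ i ∈ H, T (glue K0 w0 (ext (K \ K0) r1)) i = T w0 i := fun i hi => hT i (hH hi)
  refine many_of_labels (T := T w0) (CI := CI) ?_ ?_ hc ?_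
  · intro i hi
    exact h3 _ (Finset.mem_image_of_mem _ (hH0 hi))
  · intro t
    refine le_trans (Finset.card_le_card ?_) (hmult w0 hg t)
    exact Finset.filter_subset_filter _ hH0
  · intro i hi
    have h5 := hit i hi
    rw [hTT i hi] at h5
    refine HitT_congr (fun r hr j y hy => ?_) h5
    exact ⟨glue_not_mem _ _ _ (hkey r hr j y hy).1, glue_not_mem _ _ _ (hkey r hr j y hy).2⟩

end Pool.Agent.Helper1.T5
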