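import Pool.Agent.Helper1.T5.Cond
import Pool.Agent.Helper22.SL.Static

/-!
# T5: the conditional scheme with the static block
-/

namespace Pool.Agent.Helper1.T5

open Finset Pool.Agent.Helper22.SL Pool.Agent.Helper27.T4 Pool.Agent.Helper29.T4
  Pool.Agent.Helper22.HW

variable {κ : Type*} {Mk : κ → ℕ} {P : Pr κ}

/-- the targets which a label with the target `x` can have after the levels `< r` -/
def APt (P : Pr κ) (r x : ℕ) : Finset ℕ :=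
  (range (x + 1)).filter (fun t => P.M' * P.L r ∣ t ∧ t % P.F' r = x % P.F' r ∧
    x < t + 4 * (P.F r * P.L r))

/-- the number of pairs of windows which fit to a finite set of targets -/
def PPs (P : Pr κ) (S : Finset ℕ) (B B' : Finset ℕ) : ℕ :=
  ((S ×ˢ (B ×ˢ B')).filter
    (fun q => P.M * P.L P.h * q.2.1 + P.M' * P.L P.h * q.2.2 ∈ APt P P.h q.1)).card

theorem PP_le_PPs {S B B' : Finset ℕ} {I : ℕ} {X : ℕ → ℕ} (h1 : ∀ i < I, X i ∈ S)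
    (h2 : ∀ i < I, ∀ j < I, X i = X j → i = j) : PP P I X B B' ≤ PPs P S B B' := by
  unfold PP PPs
  refine Finset.card_le_card_of_injOn (fun q => (X q.1, q.2)) ?_ ?_
  · intro q hq
    have hq' := Finset.mem_filter.1 (Finset.mem_coe.1 hq)
    obtain ⟨hq1, hq2⟩ := Finset.mem_product.1 hq'.1
    refine Finset.mem_coe.2 (Finset.mem_filter.2 ⟨Finset.mem_product.2 ⟨h1 _ ?_, hq2⟩, hq'.2⟩)
    exact Finset.mem_range.1 hq1
  · intro q hq q' hq' he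
    have a := (Finset.mem_product.1 (Finset.mem_filter.1 (Finset.mem_coe.1 hq)).1).1
    have a' := (Finset.mem_product.1 (Finset.mem_filter.1 (Finset.mem_coe.1 hq')).1).1
    simp only [Prod.mk.injEq] at he
    exact Prod.ext (h2 _ (Finset.mem_range.1 a) _ (Finset.mem_range.1 a') he.1) he.2

/-- requirements for a finite set of targets -/
structure TgS (P : Pr κ) (S : Finset ℕ) (Ir : ℕ → ℕ) : Prop where
  dvd : ∀ t ∈ S, P.M' * P.L0 ∣ t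
  win : ∀ t ∈ S, ∀ u ∈ S, t < u + P.F 0 * P.L0
  cls : ∀ r ≤ P.h, ∀ c, (S.filter (fun t => t % P.F' r = c % P.F' r)).card ≤ Ir r

theorem TgS.tg {S : Finset ℕ} {Ir : ℕ → ℕ} (h : TgS P S Ir) {I : ℕ} {X : ℕ → ℕ}
    (h1 : ∀ i < I, X i ∈ S) (h2 : ∀ i < I, ∀ j < I, X i = X j → i = j) : Tg P I X Ir where
  dvd i hi := h.dvd _ (h1 i hi)
  inj := h2
  win i hi j hj := h.win _ (h1 i hi) _ (h1 j hj)
  cls r hr c := by
    refine le_trans ?_ (h.cls r hr c)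
    refine Finset.card_le_card_of_injOn X ?_ ?_
    · intro i hi
      have := Finset.mem_filter.1 (Finset.mem_coe.1 hi)
      exact Finset.mem_coe.2 (Finset.mem_filter.2 ⟨h1 i (Finset.mem_range.1 this.1), this.2⟩)
    · intro i hi j hj he
      have a := (Finset.mem_filter.1 (Finset.mem_coe.1 hi)).1
      have b := (Finset.mem_filter.1 (Finset.mem_coe.1 hj)).1
      exact h2 i (Finset.mem_range.1 a) j (Finset.mem_range.1 b) he

variable [DecidableEq κ]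

/-- the static block for a finite set of targets -/
theorem static_set (hP : P.Ok Mk) {K : Finset κ} {S : Finset ℕ} {Ir : ℕ → ℕ} (hT : TgS P S Ir)
    (hMk : ∀ k, 0 < Mk k)
    (hK : ∀ r < P.h, ∀ i, ∀ y ∈ P.Y r, P.key r i y ∈ K ∧ P.key' r i y ∈ K) (B B' : Finset ℕ)
    {I : ℕ} (hI : S.card ≤ I) {ρ Γ : ℝ} (hρ : 0 ≤ ρ)
    (hA : ∀ r < P.h, 80 * I * P.A r * P.p r 0 * P.p r 2 * Real.sqrt (P.q r 1) ≤ ρ * P.q r 1)
    (hB : ∀ r < P.h, 1 ≤ r → Ir r * P.A r * P.pc r ≤ ρ)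
    (hL : PPs P S B B' * P.A P.h * P.pc P.h ≤ ρ)
    (hΓ : ∀ r < P.h, (P.q r 0 * P.q r 1 : ℕ) * (P.W r * P.q r 1) ≤ Γ) (hΓ' : P.W P.h ≤ Γ)
    {m : ℕ} (hm : 1 ≤ m) {X : ℕ → ℕ} (h1 : ∀ i < S.card, X i ∈ S)
    (h2 : ∀ i < S.card, ∀ j < S.card, X i = X j → i = j) :
    PrG Mk K (fun w => Many P w S.card X B B' ((m + 1) ^ 2 ^ (4 * P.h)))
      ((3 * P.h + 1) * Γ * ρ ^ (m + 1)) := by
  have hApos : ∀ r, 0 ≤ P.A r := fun r => by
    unfold Pr.A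
    exact Finset.prod_nonneg (fun _ _ => by positivity)
  have hpc : ∀ r, 0 ≤ P.pc r := fun r => by
    cases r with
    | zero => exact zero_le_one
    | succ r => simp only [Pr.pc]; positivity
  refine static_block hP (hT.tg h1 h2) hMk hK B B' hρ ?_ hB ?_ hΓ hΓ' hm
  · intro r hr
    refine le_trans ?_ (hA r hr)
    have hc : (S.card : ℝ) ≤ I := by exact_mod_cast hI
    have hs : 0 ≤ Real.sqrt (P.q r 1 : ℝ) := Real.sqrt_nonneg _
    have := hApos r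
    gcongr
  · refine le_trans ?_ hL
    have hc : (PP P S.card X B B' : ℝ) ≤ PPs P S B B' := by
      exact_mod_cast PP_le_PPs h1 h2
    have := hApos P.h
    have := hpc P.h
    gcongr

/-- **THE CONDITIONAL SCHEME WITH THE STATIC BLOCK** -/
theorem cond_static {ι : Type*} (hP : P.Ok Mk) (hMk : ∀ k, 0 < Mk k) {K0 K : Finset κ}
    (hK0 : K0 ⊆ K) (Lab : (κ → ℕ) → Finset ι) (T : (κ → ℕ) → ι → ℕ)
    (hdep : ∀ w w' : κ → ℕ, (∀ k ∈ K0, w k = w' k) →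
      Lab w = Lab w' ∧ ∀ i ∈ Lab w, T w i = T w' i)
    (hK : ∀ r < P.h, ∀ i, ∀ y ∈ P.Y r, P.key r i y ∈ K \ K0 ∧ P.key' r i y ∈ K \ K0)
    (Good : (κ → ℕ) → Prop) {ε : ℝ} (hgood : PrG Mk K0 (fun w => ¬ Good w) ε) {CI : ℕ}
    (hCI : 1 ≤ CI)
    (hmult : ∀ w, Good w → ∀ t, ((Lab w).filter (fun i => T w i = t)).card ≤ CI)
    {Ir : ℕ → ℕ} {I : ℕ} (hTg : ∀ w, Good w → TgS P ((Lab w).image (T w)) Ir)
    (hI : ∀ w, Good w → ((Lab w).image (T w)).card ≤ I) (B B' : Finset ℕ)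
    {ρ Γ : ℝ} (hρ : 0 ≤ ρ)
    (hA : ∀ r < P.h, 80 * I * P.A r * P.p r 0 * P.p r 2 * Real.sqrt (P.q r 1) ≤ ρ * P.q r 1)
    (hB : ∀ r < P.h, 1 ≤ r → Ir r * P.A r * P.pc r ≤ ρ)
    (hL : ∀ w, Good w → PPs P ((Lab w).image (T w)) B B' * P.A P.h * P.pc P.h ≤ ρ)
    (hΓ : ∀ r < P.h, (P.q r 0 * P.q r 1 : ℕ) * (P.W r * P.q r 1) ≤ Γ) (hΓ' : P.W P.h ≤ Γ)
    {m : ℕ} (hm : 1 ≤ m) :
    PrG Mk K (fun w => ∃ H ⊆ Lab w, CI * (m + 1) ^ 2 ^ (4 * P.h) ≤ H.card ∧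
      ∀ i ∈ H, HitT P w B B' (T w i)) (ε + (3 * P.h + 1) * Γ * ρ ^ (m + 1)) := by
  have hΓ0 : 0 ≤ Γ := by
    refine le_trans ?_ hΓ'
    unfold Pr.W
    exact Finset.prod_nonneg (fun _ _ => by positivity)
  have hpos : 0 < (m + 1) ^ 2 ^ (4 * P.h) := by positivity
  have h0 := cond_scheme (P := P) (Mk := Mk) (N := (m + 1) ^ 2 ^ (4 * P.h) - 1) hK0 Lab T hdep
    (fun r hr i y hy => ⟨(Finset.mem_sdiff.1 (hK r hr i y hy).1).2,
      (Finset.mem_sdiff.1 (hK r hr i y hy).2).2⟩) Good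
    (δ := (3 * P.h + 1) * Γ * ρ ^ (m + 1)) (by positivity) hgood hmult B B' ?_
  · refine PrG_mono ?_ le_rfl h0
    rintro r _ ⟨H, h1, h2, h3⟩
    refine ⟨H, h1, lt_of_lt_of_le ?_ h2, h3⟩
    exact Nat.mul_lt_mul_of_pos_left (Nat.sub_lt hpos one_pos) hCI
  · rintro w hw J X rfl h1 h2 _
    rw [Nat.sub_add_cancel hpos]
    exact static_set hP (hTg w hw) hMk hK B B' (hI w hw) hρ hA hB (hL w hw) hΓ hΓ' hm h1 h2

end Pool.Agent.Helper1.T5
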