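import Pool.Agent.Helper11.T5.Defs
import Pool.Agent.Helper22.SL.PrG

/-!
# T5a: `PrG` and `PrLe`; a state as main level above its inner windows
-/

set_option autoImplicit false

namespace Pool.Agent.Helper1.T5

open Finset Pool.Agent.Helper57.T5

/-- the two probabilities are the same -/
theorem prG_iff_prLe {κ : Type*} [DecidableEq κ] {Mk : κ → ℕ} {K : Finset κ}
    {B : (κ → ℕ) → Prop} {ε : ℝ} :
    Pool.Agent.Helper22.SL.PrG Mk K B ε ↔ Pool.Agent.Helper42.T5.Pr.PrLe Mk K B ε := Iff.rfl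

/-- the inner part of a scale -/
def inn {β : Type*} [DecidableEq β] (r : ℕ) (Y : ℕ → Finset β) (cc : ℕ → β → ℕ)
    (U : Finset ℕ) : Finset ℕ :=
  (Fintype.piFinset (fun t : Fin r => Y t) ×ˢ U).image (fun q => ∑ t : Fin r, cc t (q.1 t) + q.2)

/-- pairs of two scales from pairs of labels and of inner elements -/
theorem scale_card_le {α β : Type*} [Inhabited α] [DecidableEq β] (X X' : Finset α)
    (c c' : α → ℕ) (r r' : ℕ) (Y Y' : ℕ → Finset β) (cc cc' : ℕ → β → ℕ) (U U' : Finset ℕ)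
    (n : ℕ) :
    ((scaleSet X c r Y cc U ×ˢ scaleSet X' c' r' Y' cc' U').filter
      (fun a => a.1 + a.2 = n)).card ≤
    (((X ×ˢ X') ×ˢ (inn r Y cc U ×ˢ inn r' Y' cc' U')).filter
      (fun z => c z.1.1 + c' z.1.2 + (z.2.1 + z.2.2) = n)).card := by
  classical
  have key : ∀ (X : Finset α) (c : α → ℕ) (r : ℕ) (Y : ℕ → Finset β) (cc : ℕ → β → ℕ)
      (U : Finset ℕ), ∀ a ∈ scaleSet X c r Y cc U, ∃ q : α × ℕ, q.1 ∈ X ∧
        q.2 ∈ inn r Y cc U ∧ a = c q.1 + q.2 := by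
    intro X c r Y cc U a ha
    unfold scaleSet at ha
    obtain ⟨⟨⟨x, y⟩, u⟩, hq, rfl⟩ := mem_image.1 ha
    obtain ⟨h1, h2⟩ := mem_product.1 hq
    obtain ⟨h3, h4⟩ := mem_product.1 h1
    refine ⟨(x, ∑ t : Fin r, cc t (y t) + u), h3, ?_, ?_⟩
    · unfold inn
      exact mem_image.2 ⟨(y, u), mem_product.2 ⟨h4, h2⟩, rfl⟩
    · simp only
      ring
  have k1 := key X c r Y cc U
  have k2 := key X' c' r' Y' cc' U'
  choose! g hg1 hg2 hg3 using k1
  choose! g' hg1' hg2' hg3' using k2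
  refine Finset.card_le_card_of_injOn
    (fun a => (((g a.1).1, (g' a.2).1), ((g a.1).2, (g' a.2).2))) ?_ ?_
  · intro a ha
    obtain ⟨h1, h2⟩ := mem_filter.1 (mem_coe.1 ha)
    obtain ⟨h3, h4⟩ := mem_product.1 h1
    refine mem_coe.2 (mem_filter.2 ⟨mem_product.2 ⟨mem_product.2 ⟨hg1 _ h3, hg1' _ h4⟩,
      mem_product.2 ⟨hg2 _ h3, hg2' _ h4⟩⟩, ?_⟩)
    have e1 := hg3 _ h3
    have e2 := hg3' _ h4
    simp only
    omega
  · intro a ha b hb hab
    obtain ⟨h1, _⟩ := mem_filter.1 (mem_coe.1 ha)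
    obtain ⟨h3, h4⟩ := mem_product.1 h1
    obtain ⟨h5, _⟩ := mem_filter.1 (mem_coe.1 hb)
    obtain ⟨h7, h8⟩ := mem_product.1 h5
    simp only [Prod.mk.injEq] at hab
    obtain ⟨⟨a1, a2⟩, a3, a4⟩ := hab
    refine Prod.ext ?_ ?_
    · rw [hg3 _ h3, hg3 _ h7, a1, a3]
    · rw [hg3' _ h4, hg3' _ h8, a2, a4]

end Pool.Agent.Helper1.T5
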