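import Pool.Agent.Helper1.T5.Near
import Pool.Agent.Helper1.T5.Split
import Pool.Agent.Helper39.T5.InRep
import Pool.Agent.Helper96.T5.Inst

/-!
# T5a, J0 (b): `near_count` for the definitions of T5a
-/

set_option autoImplicit false

namespace Pool.Agent.Helper1.T5

open Finset Pool.Agent.Helper27.T4 Pool.Agent.Helper27.T5
open Pool.Agent.Helper5.ET hiding Key Mk keysOf AA Rp vlo vhi bkey
open Pool.Agent.Helper22.HW hiding fam
open Pool.Agent.Helper22.SL Pool.Agent.Helper30.T5 Pool.Agent.Helper57.T5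
open Pool.Agent.Helper11.T5 Pool.Agent.Helper50.T5
open Pool.Agent.Helper39.SL Pool.Agent.Helper39.T5 Pool.Agent.Helper55.T5
open Pool.Agent.Helper3.T5 Pool.Agent.Helper96.T5

variable {m k l l' h F0 : ℕ}

/-- the keys of the main level of two states -/
noncomputable def keys1 (m k l l' : ℕ) : Finset Key :=
  (keysOf m k l ∪ keysOf m k l').filter (fun q => q.2.1 = 1)

theorem keys1_sub {K : Finset Key} (hK : keysOf m k l ⊆ K) (hK' : keysOf m k l' ⊆ K) :
    keys1 m k l l' ⊆ K := (filter_subset _ _).trans (union_subset hK hK')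

theorem keys1_disj (s : ℕ) : Disjoint (keys1 m k l l') (deep m k l l' s) := by
  rw [Finset.disjoint_left]
  intro q h1 h2
  have e1 := (mem_filter.1 h1).2
  unfold deep keysD at h2
  rw [mem_union, mem_filter, mem_filter] at h2
  omega

theorem hkey_mem_keys1 {x : Fin 3 → ℕ} (hx : x ∈ X1 l) (P : Finset (Fin 3)) (i : Fin 3) :
    hkey l 1 i (mask P x) ∈ keys1 m k l l' :=
  mem_filter.2 ⟨mem_union_left _ (hkey_mem_main m k hx P i), rfl⟩

theorem hkey_mem_keys1' {x : Fin 3 → ℕ} (hx : x ∈ X1 l') (P : Finset (Fin 3)) (i : Fin 3) :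
    hkey l' 1 i (mask P x) ∈ keys1 m k l l' :=
  mem_filter.2 ⟨mem_union_right _ (hkey_mem_main m k hx P i), rfl⟩

theorem prD_key_level (r : ℕ) (i : Fin 3) (y : Fin 3 → ℕ) :
    ((prD m l' l 0 h F0).key r i y).2.1 ≠ 1 ∧ ((prD m l' l 0 h F0).key' r i y).2.1 ≠ 1 := by
  constructor
  · show 0 + r + 2 ≠ 1
    omega
  · show 0 + r + 2 ≠ 1
    omega

/-- the static keys -/
theorem prD_keys_rest (he : era l' = era l) (hk : h ≤ k) {K : Finset Key}
    (hK : keysOf m k l ⊆ K) (hK' : keysOf m k l' ⊆ K) :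
    ∀ r < (prD m l' l 0 h F0).h, ∀ i, ∀ y ∈ (prD m l' l 0 h F0).Y r,
      (prD m l' l 0 h F0).key r i y ∈ K \ (keys1 m k l l' ∪ deep m k l l' h) ∧
      (prD m l' l 0 h F0).key' r i y ∈ K \ (keys1 m k l l' ∪ deep m k l l' h) := by
  intro r hr i y hy
  obtain ⟨h1, h2⟩ := prD_keys_deep (t := 0) he (by omega) hK hK' r hr i y hy
  rw [zero_add] at h1 h2
  obtain ⟨h3, h4⟩ := prD_key_level (m := m) (l := l) (l' := l') (h := h) (F0 := F0) r i y
  refine ⟨mem_sdiff.2 ⟨(mem_sdiff.1 h1).1, ?_⟩, mem_sdiff.2 ⟨(mem_sdiff.1 h2).1, ?_⟩⟩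
  · rw [mem_union, not_or]
    exact ⟨fun hh => h3 (mem_filter.1 hh).2, (mem_sdiff.1 h1).2⟩
  · rw [mem_union, not_or]
    exact ⟨fun hh => h4 (mem_filter.1 hh).2, (mem_sdiff.1 h2).2⟩

/-- the representations from main pairs and pairs of inner elements -/
theorem Rp_le (w : Key → ℕ) (n : ℕ) : Rp m k l l' w n ≤
    (((X1 l ×ˢ X1 l') ×ˢ (Zw m k l 0 w ×ˢ Zw m k l' 0 w)).filter
      (fun z => c1 m l w z.1.1 + c1 m l' w z.1.2 + (z.2.1 + z.2.2) = n)).card := by
  classical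
  have key : ∀ l : ℕ, inn 0 (Ys m (era l)) (fun t y => cs m l t w y) (Zw m k l 0 w) =
      Zw m k l 0 w := by
    intro l
    apply Finset.ext
    intro u
    unfold inn
    rw [mem_image]
    constructor
    · rintro ⟨q, hq, rfl⟩
      simpa using (mem_product.1 hq).2
    · intro hu
      refine ⟨(fun t => t.elim0, u), mem_product.2 ⟨?_, hu⟩, by simp⟩
      rw [Fintype.mem_piFinset]
      exact fun t => t.elim0
  have h1 := scale_card_le (X1 l) (X1 l') (c1 m l w) (c1 m l' w) 0 0 (Ys m (era l))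
    (Ys m (era l')) (fun t y => cs m l t w y) (fun t y => cs m l' t w y) (Zw m k l 0 w)
    (Zw m k l' 0 w) n
  rw [key, key] at h1
  refine le_trans (Finset.card_le_card ?_) h1
  exact Finset.filter_subset_filter _ (Finset.product_subset_product (AA_split (Nat.zero_le _))
    (AA_split (Nat.zero_le _)))

/-- **`near_count` for T5a** -/
theorem near_inst (hM : (mp m l' l).Ok (Mk m)) (hP : (prD m l' l 0 h F0).Ok (Mk m))
    (hb : 10 * m ≤ la (era l)) (hk : k + 1 < m) (he : era l' = era l) (hh : h ≤ k)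
    {K : Finset Key} (hK : keysOf m k l ⊆ K) (hK' : keysOf m k l' ⊆ K)
    {n1 I R0 : ℕ} {Ir : ℕ → ℕ}
    (hTg : ∀ w, ∀ n < n1, TgS (prD m l' l 0 h F0)
      ((Lb (mp m l' l) hM n w).image (tg (mp m l' l) hM n w)) Ir)
    (hI : ∀ w, ∀ n < n1, ((Lb (mp m l' l) hM n w).image (tg (mp m l' l) hM n w)).card ≤ I)
    {ρ Γ : ℝ} (hρ : 0 ≤ ρ)
    (hA : ∀ r < (prD m l' l 0 h F0).h, 80 * I * (prD m l' l 0 h F0).A r *
      (prD m l' l 0 h F0).p r 0 * (prD m l' l 0 h F0).p r 2 *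
      Real.sqrt ((prD m l' l 0 h F0).q r 1) ≤ ρ * (prD m l' l 0 h F0).q r 1)
    (hB : ∀ r < (prD m l' l 0 h F0).h, 1 ≤ r →
      Ir r * (prD m l' l 0 h F0).A r * (prD m l' l 0 h F0).pc r ≤ ρ)
    (hΓ : ∀ r < (prD m l' l 0 h F0).h,
      ((prD m l' l 0 h F0).q r 0 * (prD m l' l 0 h F0).q r 1 : ℕ) *
      ((prD m l' l 0 h F0).W r * (prD m l' l 0 h F0).q r 1) ≤ Γ)
    (hΓ' : (prD m l' l 0 h F0).W (prD m l' l 0 h F0).h ≤ Γ)
    {A : (Key → ℕ) → Prop} {δ : ℝ} (hbad : PrG (Mk m) (deep m k l l' h) A δ)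
    (hPP : ∀ w : Key → ℕ, (∀ q, w q < Mk m q) → ¬ A w → ∀ (J : ℕ) (X : ℕ → ℕ), J ≤ I →
      Tg (prD m l' l 0 h F0) J X Ir → (∀ i < J, X i < n1) →
      PP (prD m l' l 0 h F0) J X (Bw m k l h w) (Bw m k l' h w) *
        (prD m l' l 0 h F0).A (prD m l' l 0 h F0).h *
        (prD m l' l 0 h F0).pc (prD m l' l 0 h F0).h ≤ ρ)
    (hleaf : ∀ w : Key → ℕ, (∀ q, w q < Mk m q) → ¬ A w → ∀ t,
      ((Bw m k l h w ×ˢ Bw m k l' h w).filter
        (fun q => Nj l * LL (QQ m (era l)) h * q.1 + Nj l' * LL (QQ m (era l)) h * q.2 = t)).card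
        ≤ R0)
    {CI : ℕ} {ε : ℝ} (hε : 0 ≤ ε)
    (hmult : PrG (Mk m) (keys1 m k l l') (fun w => ∃ s : ℕ, CI < ((X1 l ×ˢ X1 l').filter
      (fun z => c1 m l w z.1 + c1 m l' w z.2 = s)).card) ε)
    {N : ℕ} (hN : 1 ≤ N) :
    PrG (Mk m) K (fun w => ∃ n < n1,
      CI * ((N + 1) ^ 2 ^ (4 * h) * (Cd (prD m l' l 0 h F0) * R0)) < Rp m k l l' w n)
      (δ + (ε + n1 * ((3 * h + 1) * Γ * ρ ^ (N + 1)))) := by
  have hL : (prD m l' l 0 h F0).L (prD m l' l 0 h F0).h = LL (QQ m (era l)) h := by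
    have := prD_L (m := m) (l := l) (l' := l') (t0 := 0) (h := h) (F0 := F0) h
    rw [zero_add] at this
    exact this
  have main := near_count (M := mp m l' l) (P := prD m l' l 0 h F0) (Mk := Mk m) hM hP
    (Mk_pos m) (K1 := keys1 m k l l') (K2 := deep m k l l' h) (K := K)
    (keys1_disj h) (keys1_sub hK hK') (deep_sub hK hK')
    (fun x hx i => hkey_mem_keys1 hx _ i) (fun x hx i => hkey_mem_keys1' hx _ i)
    (prD_keys_rest he hh hK hK') (fun w => Bw m k l h w) (fun w => Bw m k l' h w)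
    (fun w => Zw m k l 0 w) (fun w => Zw m k l' 0 w)
    (fun w w' hw => Bw_congr_deep hw)
    (fun w => by
      have := rep_prD (t := 0) (h := h) (k := k) hP hb hk (by omega) w
      rw [zero_add] at this
      exact this)
    (fun w => by
      have := rep_prD' (t := 0) (h := h) (k := k) hP hb hk he (by omega) w
      rw [zero_add] at this
      exact this)
    rfl (n1 := n1) (I := I) (R0 := R0) (Ir := Ir) hTg hI hρ hA hB hΓ hΓ' hbad hPP
    (fun w h1 h2 t => by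
      refine le_trans (le_of_eq ?_) (hleaf w h1 h2 t)
      rw [hL]
      rfl) hε hmult hN
  refine PrG_mono ?_ le_rfl main
  rintro r _ ⟨n, hn, hlt⟩
  exact ⟨n, hn, lt_of_lt_of_le hlt (Rp_le _ _)⟩

end Pool.Agent.Helper1.T5
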