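import Pool.Agent.Helper1.T5.CondStatic
import Pool.Agent.Helper3.T5.Defs
import Pool.Agent.Helper39.SL.Union

/-!
# T5, block J0 (b): assembly

The main level `M : MP` above the static levels `P : Pr`, without a common front.  The labels are
the pairs of main vectors; their targets `n - (code + code')` depend only on the main keys `K1`,
the windows only on the keys `K2`.
-/

namespace Pool.Agent.Helper1.T5

open Finset Pool.Agent.Helper22.SL Pool.Agent.Helper27.T4 Pool.Agent.Helper29.T4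
  Pool.Agent.Helper22.HW Pool.Agent.Helper3.T5 Pool.Agent.Helper39.SL

variable {ι κ : Type*} [Fintype ι] [DecidableEq ι] {Mk : κ → ℕ} {P : Pr κ}

/-- the labels of `n`: pairs of main vectors whose codes fit to `n` -/
noncomputable def Lb (M : MP ι κ) (hM : M.Ok Mk) (n : ℕ) (w : κ → ℕ) :
    Finset ((ι → ℕ) × (ι → ℕ)) :=
  (M.prs hM w M.c' n).filter (fun z => M.cd hM w z.1 + M.cd' hM w z.2 ≤ n)

/-- the target of a label -/
noncomputable def tg (M : MP ι κ) (hM : M.Ok Mk) (n : ℕ) (w : κ → ℕ)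
    (z : (ι → ℕ) × (ι → ℕ)) : ℕ :=
  n - (M.cd hM w z.1 + M.cd' hM w z.2)

variable {M : MP ι κ}

theorem cd_congr (hM : M.Ok Mk) {w w' : κ → ℕ} {x : ι → ℕ}
    (h : ∀ i, w (M.key i x) = w' (M.key i x)) : M.cd hM w x = M.cd hM w' x := by
  unfold MP.cd MP.ρ
  congr 1
  funext i
  rw [h i]

theorem cd'_congr (hM : M.Ok Mk) {w w' : κ → ℕ} {x : ι → ℕ}
    (h : ∀ i, w (M.key' i x) = w' (M.key' i x)) : M.cd' hM w x = M.cd' hM w' x := by
  unfold MP.cd' MP.ρ'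
  congr 1
  funext i
  rw [h i]

/-- the two assignments agree on the main keys -/
def AgM (M : MP ι κ) (w w' : κ → ℕ) : Prop :=
  (∀ x ∈ M.X, ∀ i, w (M.key i x) = w' (M.key i x)) ∧
    ∀ x ∈ M.X', ∀ i, w (M.key' i x) = w' (M.key' i x)

theorem AgM.sum (hM : M.Ok Mk) {w w' : κ → ℕ} (h : AgM M w w') {z : (ι → ℕ) × (ι → ℕ)}
    (hz : z ∈ M.X ×ˢ M.X') :
    M.cd hM w z.1 + M.cd' hM w z.2 = M.cd hM w' z.1 + M.cd' hM w' z.2 := by
  obtain ⟨h1, h2⟩ := Finset.mem_product.1 hz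
  rw [cd_congr hM (h.1 _ h1), cd'_congr hM (h.2 _ h2)]

theorem Lb_subset (hM : M.Ok Mk) (n : ℕ) (w : κ → ℕ) {z : (ι → ℕ) × (ι → ℕ)}
    (hz : z ∈ Lb M hM n w) : z ∈ M.X ×ˢ M.X' := by
  classical
  unfold Lb MP.prs at hz
  exact (Finset.mem_filter.1 (Finset.mem_filter.1 hz).1).1

theorem Lb_congr (hM : M.Ok Mk) (n : ℕ) {w w' : κ → ℕ} (h : AgM M w w') :
    Lb M hM n w = Lb M hM n w' := by
  classical
  apply Finset.ext
  intro z
  unfold Lb MP.prs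
  simp only [Finset.mem_filter]
  constructor
  · rintro ⟨⟨h1, h2⟩, h3⟩
    rw [h.sum hM h1] at h2 h3
    exact ⟨⟨h1, h2⟩, h3⟩
  · rintro ⟨⟨h1, h2⟩, h3⟩
    rw [← h.sum hM h1] at h2 h3
    exact ⟨⟨h1, h2⟩, h3⟩

theorem image_congr (hM : M.Ok Mk) (n : ℕ) {w w' : κ → ℕ} (h : AgM M w w') :
    (Lb M hM n w).image (tg M hM n w) = (Lb M hM n w').image (tg M hM n w') := by
  rw [Lb_congr hM n h]
  refine Finset.image_congr (fun z hz => ?_)
  unfold tg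
  rw [h.sum hM (Lb_subset hM n w' (Finset.mem_coe.1 hz))]

/-- elements with a representation are multiples of `M'` -/
theorem rep_dvd {c : ℕ → (Fin 3 → ℕ) → ℕ} {m : ℕ} {B U : Finset ℕ}
    (hc : ∀ r < P.h, ∀ y, P.M' ∣ c r y) (hm : P.M' ∣ m) (hU : Rep P c m B U) {u : ℕ}
    (hu : u ∈ U) : P.M' ∣ u := by
  obtain ⟨y, _, b, _, rfl⟩ := hU u hu
  refine dvd_add (Finset.dvd_sum fun r hr => hc r (Finset.mem_range.1 hr) _) ?_
  exact (hm.trans (dvd_mul_right _ _)).trans (dvd_mul_right _ _)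

theorem M'_dvd_cU (hP : P.Ok Mk) (w : κ → ℕ) {r : ℕ} (hr : r < P.h) (y : Fin 3 → ℕ) :
    P.M' ∣ cU hP w r y :=
  ((hP.M'F' (r + 1) hr).trans (hP.F'F (r + 1) hr)).trans
    ((dvd_mul_right _ _).trans (dvd_cU hP w r y))

theorem M'_dvd_cU' (hP : P.Ok Mk) (w : κ → ℕ) {r : ℕ} (hr : r < P.h) (y : Fin 3 → ℕ) :
    P.M' ∣ cU' hP w r y :=
  (hP.M'F' (r + 1) hr).trans ((dvd_mul_right _ _).trans (dvd_cU' hP w r y))

/-- the number of solutions for fixed tables -/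
theorem count_le (hM : M.Ok Mk) (hP : P.Ok Mk) (w : κ → ℕ) {n CI N R0 I : ℕ} {X : ℕ → ℕ}
    {B B' U U' : Finset ℕ} (hU : Rep P (cU hP w) P.M B U) (hU' : Rep P (cU' hP w) P.M' B' U')
    (hN0 : P.M' = M.N0)
    (hsurj : ∀ t ∈ (Lb M hM n w).image (tg M hM n w), ∃ i < I, X i = t)
    (hCI : ∀ s, ((M.X ×ˢ M.X').filter
      (fun z => M.cd hM w z.1 + M.cd' hM w z.2 = s)).card ≤ CI)
    (hleaf : ∀ t, ((B ×ˢ B').filter
      (fun q => P.M * P.L P.h * q.1 + P.M' * P.L P.h * q.2 = t)).card ≤ R0)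
    (hnM : ¬ Many P w I X B B' N) :
    (((M.X ×ˢ M.X') ×ˢ (U ×ˢ U')).filter
      (fun z => M.cd hM w z.1.1 + M.cd' hM w z.1.2 + (z.2.1 + z.2.2) = n)).card
      ≤ CI * (N * (Cd P * R0)) := by
  classical
  set G := ((M.X ×ˢ M.X') ×ˢ (U ×ˢ U')).filter
      (fun z => M.cd hM w z.1.1 + M.cd' hM w z.1.2 + (z.2.1 + z.2.2) = n) with hG
  choose! g hg using hsurj
  -- the labels of the solutions
  have hlab : ∀ z ∈ G, z.1 ∈ Lb M hM n w ∧ tg M hM n w z.1 = z.2.1 + z.2.2 := by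
    intro z hz
    obtain ⟨h1, h2⟩ := Finset.mem_filter.1 hz
    obtain ⟨h3, h4⟩ := Finset.mem_product.1 h1
    obtain ⟨h5, h6⟩ := Finset.mem_product.1 h4
    have d1 : P.M' ∣ z.2.1 := rep_dvd (fun r hr y => M'_dvd_cU hP w hr y) hP.M'M hU h5
    have d2 : P.M' ∣ z.2.2 := rep_dvd (fun r hr y => M'_dvd_cU' hP w hr y) dvd_rfl hU' h6
    constructor
    · unfold Lb MP.prs
      refine Finset.mem_filter.2 ⟨Finset.mem_filter.2 ⟨h3, fun i => ?_⟩, by omega⟩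
      have d3 : M.p i ^ M.c' i ∣ z.2.1 + z.2.2 := by
        refine dvd_trans ?_ (dvd_add d1 d2)
        rw [hN0]
        unfold MP.N0 NN
        exact Finset.dvd_prod_of_mem _ (Finset.mem_univ i)
      have h7 : (M.cd hM w z.1.1 + M.cd' hM w z.1.2) + 0 ≡
          (M.cd hM w z.1.1 + M.cd' hM w z.1.2) + (z.2.1 + z.2.2) [MOD M.p i ^ M.c' i] :=
        Nat.ModEq.add_left _ ((Nat.modEq_zero_iff_dvd).2 d3).symm
      rw [h2, add_zero] at h7
      exact h7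
    · unfold tg
      omega
  have hmem : ∀ z ∈ G, g (tg M hM n w z.1) < I ∧ X (g (tg M hM n w z.1)) = tg M hM n w z.1 :=
    fun z hz => hg _ (Finset.mem_image_of_mem _ (hlab z hz).1)
  have h1 : G.card ≤ CI * ((range I ×ˢ (U ×ˢ U')).filter
      (fun t => t.2.1 + t.2.2 = X t.1)).card := by
    refine Finset.card_le_mul_card_image_of_maps_to
      (f := fun z : ((ι → ℕ) × (ι → ℕ)) × (ℕ × ℕ) => ((g (tg M hM n w z.1), z.2) : ℕ × (ℕ × ℕ)))
      ?_ CI ?_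
    · intro z hz
      obtain ⟨h2, h3⟩ := hmem z hz
      refine Finset.mem_filter.2 ⟨Finset.mem_product.2 ⟨Finset.mem_range.2 h2,
        (Finset.mem_product.1 (Finset.mem_filter.1 hz).1).2⟩, ?_⟩
      show z.2.1 + z.2.2 = X (g (tg M hM n w z.1))
      rw [h3, (hlab z hz).2]
    · rintro ⟨j, u, u'⟩ _
      refine le_trans (Finset.card_le_card_of_injOn
        (fun z : ((ι → ℕ) × (ι → ℕ)) × (ℕ × ℕ) => z.1) ?_ ?_) (hCI (n - (u + u')))
      · intro z hz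
        have hz' := Finset.mem_filter.1 (Finset.mem_coe.1 hz)
        obtain ⟨h3, h4⟩ := Finset.mem_filter.1 hz'.1
        have h5 : z.2 = (u, u') := (Prod.mk.inj hz'.2).2
        refine Finset.mem_coe.2 (Finset.mem_filter.2 ⟨(Finset.mem_product.1 h3).1, ?_⟩)
        rw [h5] at h4
        show M.cd hM w z.1.1 + M.cd' hM w z.1.2 = n - (u + u')
        simp only at h4
        omega
      · intro z hz z' hz' he
        have a := (Prod.mk.inj (Finset.mem_filter.1 (Finset.mem_coe.1 hz)).2).2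
        have a' := (Prod.mk.inj (Finset.mem_filter.1 (Finset.mem_coe.1 hz')).2).2
        exact Prod.ext he (a.trans a'.symm)
  exact h1.trans (Nat.mul_le_mul_left _ (link_count hP w hU hU' (leaf_bound' hP w hU hU' hleaf)
    hnM))

variable [DecidableEq κ]

/-- **J0 (b), ASSEMBLY** -/
theorem near_count (hM : M.Ok Mk) (hP : P.Ok Mk) (hMk : ∀ k, 0 < Mk k) {K1 K2 K : Finset κ}
    (h12 : Disjoint K1 K2) (h1 : K1 ⊆ K) (h2 : K2 ⊆ K)
    (hKM : ∀ x ∈ M.X, ∀ i, M.key i x ∈ K1) (hKM' : ∀ x ∈ M.X', ∀ i, M.key' i x ∈ K1)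
    (hKP : ∀ r < P.h, ∀ i, ∀ y ∈ P.Y r, P.key r i y ∈ K \ (K1 ∪ K2) ∧
      P.key' r i y ∈ K \ (K1 ∪ K2))
    (Bw Bw' U U' : (κ → ℕ) → Finset ℕ)
    (hdep : ∀ w w' : κ → ℕ, (∀ k ∈ K2, w k = w' k) → Bw w = Bw w' ∧ Bw' w = Bw' w')
    (hU : ∀ w, Rep P (cU hP w) P.M (Bw w) (U w))
    (hU' : ∀ w, Rep P (cU' hP w) P.M' (Bw' w) (U' w)) (hN0 : P.M' = M.N0)
    {n1 I R0 : ℕ} {Ir : ℕ → ℕ}
    (hTg : ∀ w, ∀ n < n1, TgS P ((Lb M hM n w).image (tg M hM n w)) Ir)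
    (hI : ∀ w, ∀ n < n1, ((Lb M hM n w).image (tg M hM n w)).card ≤ I)
    {ρ Γ : ℝ} (hρ : 0 ≤ ρ)
    (hA : ∀ r < P.h, 80 * I * P.A r * P.p r 0 * P.p r 2 * Real.sqrt (P.q r 1) ≤ ρ * P.q r 1)
    (hB : ∀ r < P.h, 1 ≤ r → Ir r * P.A r * P.pc r ≤ ρ)
    (hΓ : ∀ r < P.h, (P.q r 0 * P.q r 1 : ℕ) * (P.W r * P.q r 1) ≤ Γ) (hΓ' : P.W P.h ≤ Γ)
    {A : (κ → ℕ) → Prop} {δ : ℝ} (hbad : PrG Mk K2 A δ)
    (hPP : ∀ w : κ → ℕ, (∀ k, w k < Mk k) → ¬ A w → ∀ (J : ℕ) (X : ℕ → ℕ), J ≤ I →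
      Tg P J X Ir → (∀ i < J, X i < n1) →
      PP P J X (Bw w) (Bw' w) * P.A P.h * P.pc P.h ≤ ρ)
    (hleaf : ∀ w : κ → ℕ, (∀ k, w k < Mk k) → ¬ A w → ∀ t, ((Bw w ×ˢ Bw' w).filter
      (fun q => P.M * P.L P.h * q.1 + P.M' * P.L P.h * q.2 = t)).card ≤ R0)
    {CI : ℕ} {ε : ℝ} (hε : 0 ≤ ε)
    (hmult : PrG Mk K1 (fun w => ∃ s : ℕ, CI < ((M.X ×ˢ M.X').filter
      (fun z => M.cd hM w z.1 + M.cd' hM w z.2 = s)).card) ε)
    {m : ℕ} (hm : 1 ≤ m) :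
    PrG Mk K (fun w => ∃ n < n1, CI * ((m + 1) ^ 2 ^ (4 * P.h) * (Cd P * R0)) <
      (((M.X ×ˢ M.X') ×ˢ (U w ×ˢ U' w)).filter
        (fun z => M.cd hM w z.1.1 + M.cd' hM w z.1.2 + (z.2.1 + z.2.2) = n)).card)
      (δ + (ε + n1 * ((3 * P.h + 1) * Γ * ρ ^ (m + 1)))) := by
  classical
  have hΓ0 : 0 ≤ Γ := by
    refine le_trans ?_ hΓ'
    unfold Pr.W
    exact Finset.prod_nonneg (fun _ _ => by positivity)
  -- the windows
  refine PrG_cond_bad h2 (by positivity) hbad ?_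
  intro r2 hr2 hA2
  set w2 := ext K2 r2 with hw2
  have hw2lt : ∀ k, w2 k < Mk k := fun k => ext_lt hMk hr2 k
  have h1' : K1 ⊆ K \ K2 := fun k hk =>
    Finset.mem_sdiff.2 ⟨h1 hk, fun hk2 => Finset.disjoint_left.1 h12 hk hk2⟩
  -- the main keys
  refine PrG_cond_bad h1' (by positivity) hmult ?_
  intro r1 hr1 hm1
  set w1 := ext K1 r1 with hw1
  push Not at hm1
  have hKK : (K \ K2) \ K1 = K \ (K1 ∪ K2) := by
    apply Finset.ext
    intro k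
    simp only [Finset.mem_sdiff, Finset.mem_union]
    tauto
  rw [hKK]
  -- the enumerations of the targets
  have hen := fun n => exists_enum ((Lb M hM n w1).image (tg M hM n w1))
  choose X hX1 hX2 hX3 using hen
  have hTgX : ∀ n < n1, Tg P ((Lb M hM n w1).image (tg M hM n w1)).card (X n) Ir :=
    fun n hn => (hTg w1 n hn).tg (hX1 n) (hX2 n)
  have e1 : PrG Mk (K \ (K1 ∪ K2)) (fun w => ∃ n ∈ range n1,
      Many P w ((Lb M hM n w1).image (tg M hM n w1)).card (X n) (Bw w2) (Bw' w2)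
        ((m + 1) ^ 2 ^ (4 * P.h))) (∑ _n ∈ range n1, (3 * P.h + 1) * Γ * ρ ^ (m + 1)) := by
    refine PrG_exists _ (fun n hn => ?_)
    have hn' := Finset.mem_range.1 hn
    refine static_block hP (hTgX n hn') hMk (fun r hr i y hy => hKP r hr i y hy) _ _ hρ ?_ hB
      ?_ hΓ hΓ' hm
    · intro r hr
      refine le_trans ?_ (hA r hr)
      have hc : (((Lb M hM n w1).image (tg M hM n w1)).card : ℝ) ≤ I := by
        exact_mod_cast hI w1 n hn'
      have h3 := Pr.A_nonneg P r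
      gcongr
    · refine hPP w2 hw2lt hA2 _ _ (hI w1 n hn') (hTgX n hn') (fun i hi => ?_)
      obtain ⟨z, _, hz⟩ := Finset.mem_image.1 (hX1 n i hi)
      rw [← hz]
      exact lt_of_le_of_lt (Nat.sub_le _ _) hn'
  refine PrG_mono ?_ ?_ e1
  · rintro r3 _ ⟨n, hn, hlt⟩
    refine ⟨n, Finset.mem_range.2 hn, ?_⟩
    by_contra hnM
    set w3 := ext (K \ (K1 ∪ K2)) r3 with hw3
    set w := glue K2 w2 (glue K1 w1 w3) with hw
    have a1 : ∀ k ∈ K1, w k = w1 k := fun k hk => by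
      rw [hw, glue_not_mem _ _ _ (fun hk2 => Finset.disjoint_left.1 h12 hk hk2),
        glue_mem _ _ _ hk]
    have a2 : ∀ k ∈ K2, w k = w2 k := fun k hk => glue_mem _ _ _ hk
    have a3 : ∀ k ∈ K \ (K1 ∪ K2), w k = w3 k := fun k hk => by
      have hk' := (Finset.mem_sdiff.1 hk).2
      rw [Finset.mem_union, not_or] at hk'
      rw [hw, glue_not_mem _ _ _ hk'.2, glue_not_mem _ _ _ hk'.1]
    have hag : AgM M w w1 := ⟨fun x hx i => a1 _ (hKM x hx i), fun x hx i => a1 _ (hKM' x hx i)⟩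
    obtain ⟨b1, b2⟩ := hdep w w2 a2
    have hU1 := hU w
    have hU2 := hU' w
    rw [b1] at hU1
    rw [b2] at hU2
    have hnM' : ¬ Many P w ((Lb M hM n w1).image (tg M hM n w1)).card (X n) (Bw w2) (Bw' w2)
        ((m + 1) ^ 2 ^ (4 * P.h)) := by
      intro hh
      apply hnM
      refine many_congr (fun r hr i y hy => ?_) hh
      obtain ⟨k1, k2⟩ := hKP r hr i y hy
      exact ⟨(a3 _ k1).symm, (a3 _ k2).symm⟩
    refine absurd (count_le hM hP w (CI := CI) (R0 := R0) hU1 hU2 hN0 ?_ ?_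
      (hleaf w2 hw2lt hA2) hnM') (not_le.2 hlt)
    · intro t ht
      rw [image_congr hM n hag] at ht
      exact hX3 n t ht
    · intro s
      refine le_trans (Finset.card_le_card ?_) (hm1 s)
      intro z hz
      obtain ⟨c1, c2⟩ := Finset.mem_filter.1 hz
      refine Finset.mem_filter.2 ⟨c1, ?_⟩
      rw [← hag.sum hM c1]
      exact c2
  · rw [Finset.sum_const, Finset.card_range, nsmul_eq_mul]

end Pool.Agent.Helper1.T5
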