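import Pool.Agent.Helper1.T5.Inst
import Pool.Agent.Helper2.T5.TgS
import Pool.Agent.Helper3.T5.J0
import Pool.Agent.Helper5.T5.Pair
import Pool.Agent.Helper27.T5.RangeS
import Pool.Agent.Helper36.T5.MpRho
import Pool.Agent.Helper37.T5.Gap
import Pool.Agent.Helper45.T5.RegBw
import Pool.Agent.Helper63.T5.SLNumInst
import Pool.Agent.Helper83.T5.Leaf2
import Pool.Agent.Helper87.SL.Win
import Pool.Agent.Helper95.J0.Num

/-!
# T5a, J0 (b): pairs of one era without common front, distance `< 7/20 W₁`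
-/

set_option autoImplicit false

namespace Pool.Agent.Helper1.T5

open Finset Pool.Agent.Helper27.T4 Pool.Agent.Helper27.T5
open Pool.Agent.Helper5.ET hiding Key Mk keysOf AA Rp vlo vhi bkey
open Pool.Agent.Helper22.HW hiding fam
open Pool.Agent.Helper22.SL Pool.Agent.Helper30.T5 Pool.Agent.Helper57.T5
open Pool.Agent.Helper11.T5 Pool.Agent.Helper50.T5
open Pool.Agent.Helper39.SL Pool.Agent.Helper39.T5 Pool.Agent.Helper55.T5
open Pool.Agent.Helper3.T5 Pool.Agent.Helper96.T5 Pool.Agent.Helper63.T5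

/-! ## the numbers of the pair -/

section

variable {m k j l l' : ℕ}

/-- the distance is larger than the third window -/
theorem W3_lt (hk : 3 ≤ k) (h : PD m k j 1 l' l) (h0 : fc m k l' l = 0) :
    W m j 3 < l - l' := by
  have h1 := dist_of_zero h.km h.big (by omega) h.el h.el' h.lt.le h0
  have h2 := h.PPm (i := 2) (by omega)
  have h3 := h.W_step (i := 2) (by omega)
  have e : 2 + 1 = 3 := rfl
  rw [e] at h3
  omega

/-- at most two levels -/
theorem hh_le_two (hk : 3 ≤ k) (h : PD m k j 1 l' l) (h0 : fc m k l' l = 0) :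
    hh m k j 1 (l - l') ≤ 2 := by
  by_contra hc
  have h1 := lt_hh (m := m) (k := k) (j := j) (a := 1) (D := l - l') (h := 2) (by omega)
    (by omega)
  have h2 := W3_lt hk h h0
  have e : 1 + 2 = 3 := rfl
  rw [e] at h1
  omega

theorem hh_seven (hk : 3 ≤ k) (h : PD m k j 1 l' l) (h0 : fc m k l' l = 0) :
    7 * W m j (1 + hh m k j 1 (l - l')) ≤ 20 * (l - l') := by
  have h1 := hh_le_two hk h h0
  rcases hh_spec m k j 1 (l - l') with h2 | h2
  · exact h2
  · omega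

theorem last_le (hk : 3 ≤ k) (h : PD m k j 1 l' l) (h0 : fc m k l' l = 0) :
    2 * W m j (k + 1) ≤ l - l' := by
  have h1 := W3_lt hk h h0
  have h2 := h.W_step (i := 3) (by omega)
  have h3 : W m j (k + 1) ≤ W m j (3 + 1) := Pool.Agent.Helper27.T5.W_anti (by omega)
  omega

/-- the third window below the last one -/
theorem W3_le (hk : 3 ≤ k) (h : PD m k j 1 l' l) (h0 : fc m k l' l = 0) :
    W m j 3 ≤ W m j (1 + hh m k j 1 (l - l')) := by
  have h1 := hh_le_two hk h h0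
  exact Pool.Agent.Helper27.T5.W_anti (by omega)

end

/-! ## multiplicity of the targets -/

theorem exp_far {D s : ℝ} (hD : 90 ≤ D) (hs : 0 ≤ s) :
    Real.exp (45 - 13 / 2 * (D + 2 * s)) ≤ Real.exp (-(1 / 2 * D)) := by
  apply Real.exp_le_exp.2
  linarith

theorem exp_near {D x : ℝ} (hD : 90 ≤ D) (hx : D ≤ 13 * x) :
    Real.exp (45 - 13 * x) ≤ Real.exp (-(1 / 2 * D)) := by
  apply Real.exp_le_exp.2
  linarith

theorem mult_zero : ∃ j0 : ℕ, ∀ m k l l', 3 ≤ k → (hM : (mp m l' l).Ok (Mk m)) →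
    (mp m l' l).St → (h : PD m k (era l) 1 l' l) → j0 ≤ era l → fc m k l' l = 0 →
    90 ≤ l - l' → bb 0 ≤ l →
    PrG (Mk m) (keys1 m k l l') (fun w => ∃ s : ℕ,
      2 * (mp m l' l).C * (172 * l / (l - l')) < ((X1 l ×ˢ X1 l').filter
        (fun z => c1 m l w z.1 + c1 m l' w z.2 = s)).card) (Real.exp (-(l : ℝ))) := by
  obtain ⟨j1, h1⟩ := Pool.Agent.Helper36.T5.rho_mp_far
  obtain ⟨j2, h2⟩ := Pool.Agent.Helper36.T5.rho_mp_near
  refine ⟨max j1 j2, fun m k l l' hk hM hS h hj h0 h90 hb0 => ?_⟩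
  have hj1 := (le_max_left _ _).trans hj
  have hj2 := (le_max_right _ _).trans hj
  have hD90 : (90 : ℝ) ≤ ((l - l' : ℕ) : ℝ) := by exact_mod_cast h90
  have hkm := h.km
  have hD7 := h.D7
  have hρ : ((mp m l' l).C : ℝ) * (mp m l' l).Lam *
      (((mp m l' l).Ne' : ℝ) / (mp m l' l).Ne + 1 / (mp m l' l).q) ≤
      Real.exp (-(1 / 2 * ((l - l' : ℕ) : ℝ))) := by
    rcases Nat.lt_or_ge (2 * (ef m 1 l' - l')) (l - l') with hc | hc
    · refine (h1 m l l' (by omega) hj1 h.big h.u h.u' h.lt.le h.el' (by omega) hc.le).trans ?_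
      exact exp_far hD90 (Nat.cast_nonneg _)
    · refine (h2 m l l' (by omega) hj2 h.big h.u h.u' h.lt.le h.el' (by omega) hc).trans ?_
      refine exp_near hD90 ?_
      have e1 := Pool.Agent.Helper37.T5.ef_jump (m := m) (i := 1) h.el h.el' h.lt.le
        (Pool.Agent.Helper37.T5.fc_ne (k := k) (by omega) (by omega))
      have e2 := (h.lead' (i := 1) (by omega)).2.1
      have e3 := h.PPm (i := 1) (by omega)
      have e4 : l - l' ≤ 13 * (ef m 1 l - ef m 1 l') := by omega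
      exact_mod_cast e4
  have key := Pool.Agent.Helper3.T5.mult hM hS (Mk_pos m) (K := keys1 m k l l')
    (fun x hx i => hkey_mem_keys1 hx _ i) (fun x hx i => hkey_mem_keys1' hx _ i)
    (Real.exp_pos _).le hρ (172 * l / (l - l'))
  have hnum := Pool.Agent.Helper95.J0.mult_num_l (m := m) hb0 (fam (era l + 2)) (C := 172)
    (D := l - l') (by omega) (ρ := Real.exp (-(1 / 2 * ((l - l' : ℕ) : ℝ)))) (c := 1 / 2)
    (by norm_num) (Real.exp_pos _).le le_rfl (by norm_num)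
  exact PrG_mono (fun _ _ hw => hw) hnum key

/-! ## the bound of `n` -/

theorem XA_le_exp {m k l : ℕ} (hm : 1 < m) (hb : 10 * m ≤ la (era l)) (hu : used m l)
    (hb0 : bb 0 ≤ l) (hl : 1 ≤ l) : (XA m k (l + 1) : ℝ) ≤ Real.exp (50 * l) := by
  have h1 := log_XT_le (TB_TA m k) (l + 1)
  have h2 : era (l + 1) = era l := (Pool.Agent.Helper27.T5.era_add_two hu hb hm).1
  rw [h2] at h1
  have h3 := Pool.Agent.Helper37.T5.W_one_small hm hb
  have h4 := (era_bounds hb0 rfl).1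
  have h5 : W m (era l) 1 ≤ l := by omega
  have h6 : (W m (era l) 1 : ℝ) ≤ l := by exact_mod_cast h5
  have h7 : (1 : ℝ) ≤ l := by exact_mod_cast hl
  have h8 : (0 : ℝ) < XA m k (l + 1) := by exact_mod_cast XA_pos m k (l + 1)
  rw [← Real.exp_log h8]
  apply Real.exp_le_exp.2
  have h9 : Real.log (XA m k (l + 1)) ≤ 14 * ((l + 1 : ℕ) : ℝ) + 14 * W m (era l) 1 + 1 := h1
  push_cast at h9
  linarith

theorem two_exp_le {l : ℕ} (hl : 1 ≤ l) : 2 * Real.exp (50 * (l : ℝ)) ≤ Real.exp (100 * l) := by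
  have h7 : (1 : ℝ) ≤ l := by exact_mod_cast hl
  have h1 : (2 : ℝ) ≤ Real.exp (50 * l) := by
    have := Real.add_one_le_exp (50 * (l : ℝ))
    linarith
  have h2 : Real.exp (100 * (l : ℝ)) = Real.exp (50 * l) * Real.exp (50 * l) := by
    rw [← Real.exp_add]
    congr 1
    ring
  rw [h2]
  exact mul_le_mul_of_nonneg_right h1 (Real.exp_pos _).le

/-! ## the final count -/

theorem Cd_prD {m l' l h F0 k : ℕ} (hh : h ≤ k) :
    Cd (prD m l' l 0 h F0) ≤ Pool.Agent.Helper83.T5.CL k := by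
  unfold Cd Pool.Agent.Helper83.T5.CL
  have e : ∀ r, (∏ i, (2 * ((prD m l' l 0 h F0).p r i - 1))) =
      Pool.Agent.Helper83.T5.Cps r := by
    intro r
    unfold Pool.Agent.Helper83.T5.Cps
    refine Finset.prod_congr rfl (fun i _ => ?_)
    have : (prD m l' l 0 h F0).p r i = ps (0 + r) i := rfl
    rw [this, zero_add]
  rw [Finset.prod_congr rfl (fun r _ => e r)]
  refine Finset.prod_le_prod_of_subset_of_one_le' (range_subset_range.2 hh) (fun i _ _ => ?_)
  exact Pool.Agent.Helper83.T5.Cps_pos i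

/-- natural division -/
theorem div_le_of {a b W : ℕ} {x : ℝ} (hb : 0 < b) (hW : W ≤ b) (h : (a : ℝ) ≤ x * W)
    (hx : 0 ≤ x) : ((a / b : ℕ) : ℝ) ≤ x := by
  have hb' : (0 : ℝ) < b := by exact_mod_cast hb
  refine Nat.cast_div_le.trans ?_
  rw [div_le_iff₀ hb']
  refine h.trans ?_
  apply mul_le_mul_of_nonneg_left _ hx
  exact_mod_cast hW

/-- the exponents -/
theorem final_num {k l D Wh W3 h : ℕ} {x : ℝ} {c CdP : ℕ} (hx : 1 ≤ x)
    (hl : (l : ℝ) ≤ 4 * x * W3) (hD : W3 ≤ D) (hD0 : 0 < D) (hWh : W3 ≤ Wh) (hWh0 : 0 < Wh)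
    (hh : h ≤ 2) (hc : c ≤ 10 ^ 19) (hCd : CdP ≤ Pool.Agent.Helper83.T5.CL k) :
    ((2 * c * (172 * l / D) * ((20000 * l / Wh + 1 + 1) ^ 2 ^ (4 * h) *
      (CdP * Pool.Agent.Helper83.T5.CL k)) : ℕ) : ℝ) ≤
      (2 * 10 ^ 19 * 688 * 80002 ^ 256 * (Pool.Agent.Helper83.T5.CL k : ℝ) ^ 2) * x ^ 257 := by
  have hx0 : 0 ≤ x := by linarith
  have e1 : ((172 * l / D : ℕ) : ℝ) ≤ 688 * x := by
    refine div_le_of (W := W3) hD0 hD ?_ (by linarith)
    push_cast
    nlinarith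
  have e2 : ((20000 * l / Wh : ℕ) : ℝ) ≤ 80000 * x := by
    refine div_le_of (W := W3) hWh0 hWh ?_ (by linarith)
    push_cast
    nlinarith
  have e3 : ((20000 * l / Wh + 1 + 1 : ℕ) : ℝ) ≤ 80002 * x := by
    push_cast at e2 ⊢
    linarith
  have e4 : ((20000 * l / Wh + 1 + 1 : ℕ) : ℝ) ^ 2 ^ (4 * h) ≤ (80002 * x) ^ 256 := by
    refine (pow_le_pow_left₀ (Nat.cast_nonneg _) e3 _).trans ?_
    refine pow_le_pow_right₀ (by linarith) ?_
    calc 2 ^ (4 * h) ≤ 2 ^ 8 := Nat.pow_le_pow_right (by norm_num) (by omega)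
      _ = 256 := by norm_num
  have e5 : (c : ℝ) ≤ 10 ^ 19 := by exact_mod_cast hc
  have e6 : (CdP : ℝ) ≤ Pool.Agent.Helper83.T5.CL k := by exact_mod_cast hCd
  have hCL : (0 : ℝ) ≤ Pool.Agent.Helper83.T5.CL k := Nat.cast_nonneg _
  rw [Nat.cast_mul, Nat.cast_mul, Nat.cast_mul, Nat.cast_mul, Nat.cast_mul, Nat.cast_pow]
  calc ((2 : ℕ) : ℝ) * c * ((172 * l / D : ℕ) : ℝ) *
        (((20000 * l / Wh + 1 + 1 : ℕ) : ℝ) ^ 2 ^ (4 * h) *
          (CdP * Pool.Agent.Helper83.T5.CL k))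
      ≤ 2 * 10 ^ 19 * (688 * x) * ((80002 * x) ^ 256 *
          (Pool.Agent.Helper83.T5.CL k * Pool.Agent.Helper83.T5.CL k)) := by
        rw [Nat.cast_ofNat]
        gcongr
    _ = _ := by ring

/-! ## the pair statement -/

/-- a power of `l` below the third window -/
theorem rpow_le_W3 {k l : ℕ} {W3 : ℝ} (hk : 3 ≤ k) (hl : 1 ≤ l) (hW : 0 ≤ W3)
    (h : (l : ℝ) ≤ 4 * (l : ℝ) ^ ((3 : ℝ) / ((k + 2 : ℕ) : ℝ)) * W3) :
    (l : ℝ) ^ (2 / 5 : ℝ) ≤ 4 * W3 := by
  have hl1 : (1 : ℝ) ≤ l := by exact_mod_cast hl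
  have hl0 : (0 : ℝ) < l := by linarith
  have e1 : (3 : ℝ) / ((k + 2 : ℕ) : ℝ) ≤ 3 / 5 := by
    have : (5 : ℝ) ≤ ((k + 2 : ℕ) : ℝ) := by exact_mod_cast (by omega : 5 ≤ k + 2)
    apply div_le_div_of_nonneg_left (by norm_num) (by norm_num) this
  have e2 : (l : ℝ) ^ ((3 : ℝ) / ((k + 2 : ℕ) : ℝ)) ≤ (l : ℝ) ^ (3 / 5 : ℝ) :=
    Real.rpow_le_rpow_of_exponent_le hl1 e1
  have e3 : (l : ℝ) = (l : ℝ) ^ (3 / 5 : ℝ) * (l : ℝ) ^ (2 / 5 : ℝ) := by
    rw [← Real.rpow_add hl0]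
    norm_num
  have e4 : 0 < (l : ℝ) ^ (3 / 5 : ℝ) := Real.rpow_pos_of_pos hl0 _
  have e5 : (l : ℝ) ^ (3 / 5 : ℝ) * (l : ℝ) ^ (2 / 5 : ℝ) ≤ (l : ℝ) ^ (3 / 5 : ℝ) * (4 * W3) := by
    rw [← e3]
    refine h.trans ?_
    have := mul_le_mul_of_nonneg_right e2 (show 0 ≤ 4 * W3 by linarith)
    linarith
  exact le_of_mul_le_mul_left e5 e4

/-- **J0 (b)** -/
theorem nearZero (k : ℕ) (hk : 3 ≤ k) : Pool.Agent.Helper5.T5.PairOK k
    (fun l' l => era l' = era l ∧ fc (k + 2) k l' l = 0 ∧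
      20 * (l - l') < 7 * W (k + 2) (era l) 1) 771 := by
  set m := k + 2 with hm
  obtain ⟨j1, hj1⟩ := mult_zero
  obtain ⟨j2, hj2⟩ := exists_lateC m k le_rfl (cA k 60)
  obtain ⟨j3, hj3⟩ := exists_lateC m k le_rfl (Pool.Agent.Helper87.SL.cH k 60)
  obtain ⟨j4, hj4⟩ := Pool.Agent.Helper45.T5.reg_Bw m k le_rfl
  obtain ⟨j5, hj5⟩ := Pool.Agent.Helper83.T5.exists_vhi_short m k le_rfl
  obtain ⟨j6, hj6⟩ := exists_double m k le_rfl
  obtain ⟨j7, hj7⟩ := Pool.Agent.Helper27.T5.la_unbounded (20 * m)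
  obtain ⟨j8, hj8⟩ := exists_log_pow_le_W (m := m) (by omega)
    ((2000074 * spq (k + 1) + 90 : ℕ) : ℝ) 0
  obtain ⟨l9, hl9⟩ := Pool.Agent.Helper27.T5.rangeStmt k
  set J := max j1 (max j2 (max j3 (max j4 (max j5 (max j6 (max j7 (max j8 3))))))) with hJ
  refine ⟨max (bb J) l9, 2 * 10 ^ 19 * 688 * 80002 ^ 256 * (Pool.Agent.Helper83.T5.CL k : ℝ) ^ 2,
    2 / 5, 4, by positivity, by norm_num, by norm_num, ?_⟩
  rintro l l' hl' hll hu hu' ⟨he, h0, h7⟩ K hK hK'
  have hJl' : J ≤ era l' := by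
    rw [← era_bb J]
    exact era_mono ((le_max_left _ _).trans hl')
  have hJl : J ≤ era l := by rw [← he]; exact hJl'
  have hJJ := hJl
  simp only [hJ, max_le_iff] at hJJ
  obtain ⟨g1, g2, g3, g4, g5, g6, g7, g8, g9⟩ := hJJ
  have hbJ' : bb J ≤ l' := (le_max_left _ _).trans hl'
  have hb0' : bb 0 ≤ l' := (bb_strictMono.monotone (Nat.zero_le J)).trans hbJ'
  have hb0 : bb 0 ≤ l := hb0'.trans hll
  have hb3 : bb 3 ≤ l' := (bb_strictMono.monotone (by omega : 3 ≤ J)).trans hbJ'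
  have hlate := hj2 (era l) g2
  have hlateH := hj3 (era l) g3
  have hbig : 10 * m ≤ la (era l) := hlate.1.1
  have hpd : PD m k (era l) 1 l' l :=
    PD.of_zero le_rfl hbig (by omega) rfl he hu hu' hll h0 h7
  have hlt := hpd.lt
  -- sizes
  have hW1 := Pool.Agent.Helper37.T5.W_one_small (m := m) (by omega) hbig
  have hbl := (era_bounds hb0 rfl).1
  have hl1 : 1 ≤ l := by omega
  have hl1R : (1 : ℝ) ≤ l := by exact_mod_cast hl1
  have hW3 := W3_lt hk hpd h0
  have hh2 := hh_le_two hk hpd h0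
  have hh7 := hh_seven hk hpd h0
  have hlast := last_le hk hpd h0
  have hW3h := W3_le hk hpd h0
  set h := hh m k (era l) 1 (l - l') with hh
  have hhk : h ≤ k := by omega
  have hpos : 1 ≤ h := hh_pos m k (era l) 1 (l - l')
  have hWbig : ∀ i, i + 1 ≤ m → 2000074 * spq (k + 1) + 90 ≤ W m (era l) i := by
    intro i hi
    have := hj8 (era l) g8 i hi
    rw [pow_zero, mul_one] at this
    exact_mod_cast this
  have hW3big := hWbig 3 (by omega)
  have hWh0 : 0 < W m (era l) (1 + h) := Pool.Agent.Helper27.T5.W_pos _ _ _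
  -- the instance
  have hM : (mp m l' l).Ok (Mk m) := mp_ok (by omega) hbig hu hu' he hlt (by omega)
  have hS : (mp m l' l).St := mp_st he hlt (by omega) hb3
  have hF1 : Nj (ef m (0 + 1) l) ∣ 4 * FF m l 0 := Dvd.intro_left 4 rfl
  have hF2 : 4 * FF m l 0 ∣ 4 * Nj (ef m (0 + 1) l) := dvd_rfl
  have hP : (prD m l' l 0 h (4 * FF m l 0)).Ok (Mk m) := hpd.okD (t := 0) hlate.1 hF1 hF2
  have hMt : Mt' (prD m l' l 0 h (4 * FF m l 0)) m k (era l) 1 l' l := hpd.mtD (t := 0) hF1 hF2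
  set δ : ℝ := (W m (era l) (1 + h) : ℝ) / 100 with hδ
  have hδ1 : δ ≤ W m (era l) (1 + h) := by
    rw [hδ]
    have : (0 : ℝ) ≤ W m (era l) (1 + h) := Nat.cast_nonneg _
    linarith
  have hδ2 : 100 * δ ≤ W m (era l) (1 + h) := by
    rw [hδ]
    linarith
  have hIz := Pool.Agent.Helper2.T5.Iz_le m l' l
  have hreg1 := hj4 l g4 hu h (by omega) (deep m k l l' h) subset_union_left
  have hreg2 := hj4 l' (by rw [he]; exact g4) hu' h (by omega) (deep m k l l' h)
    subset_union_right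
  rw [he] at hreg2
  have key := near_inst (m := m) (k := k) (l := l) (l' := l') (h := h) (F0 := 4 * FF m l 0)
    hM hP hbig (by omega) he hhk hK hK' (n1 := XA m k (l + 1) + XA m k (l' + 1))
    (I := Pool.Agent.Helper2.T5.Iz m l' l) (R0 := Pool.Agent.Helper83.T5.CL k)
    (Ir := Pool.Agent.Helper2.T5.Irz m l' l)
    (fun w n _ => Pool.Agent.Helper2.T5.tgS hM hbig hu' he hll (by omega) n w)
    (fun w n _ => Pool.Agent.Helper2.T5.card_targets hM he hll n w)
    (ρ := Real.exp (-δ)) (Γ := GG m (era l) 1) (Real.exp_pos _).le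
    (fun r hr => hMt.toMt.hA hpd hlate hIz hδ1 hr)
    (fun r hr h1 => hMt.toMt.hB hpd hlate hδ1 hr h1
      (fun hc => Pool.Agent.Helper2.T5.Irz_small m l' l h1 hc)
      (Pool.Agent.Helper2.T5.Irz_le m l' l h1))
    (fun r hr => hMt.toMt.hG hpd hr) (hMt.toMt.hG' hpd)
    (PrG_or hreg1 hreg2)
    (fun w _ hA J X hJI hT _ => by
      rw [not_or, not_not, not_not] at hA
      have e1 : 1 + h + 1 = h + 2 := by omega
      have hB1 : Pool.Agent.Helper45.T5.RegSet (Bw m k l h w) (Qs m (era l) (1 + h + 1))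
          ((10 ^ 6) ^ (2 * W m (era l) (1 + h + 1)))
          (Real.sqrt (Qs m (era l) (1 + h + 1))) := by
        rw [e1]
        exact hA.1
      have hB2 : Pool.Agent.Helper45.T5.RegSet (Bw m k l' h w) (Qs m (era l) (1 + h + 1))
          ((10 ^ 6) ^ (2 * W m (era l) (1 + h + 1)))
          (Real.sqrt (Qs m (era l) (1 + h + 1))) := by
        rw [e1]
        exact hA.2
      have hb'10 : 10 * m ≤ la (era l') := by rw [he]; exact hbig
      refine Pool.Agent.Helper87.SL.hL_inst hpd hMt hP hT (by norm_num : (0 : ℝ) ≤ 60) hlateH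
        (hj7 (era l) g7) (show 1 + h ≤ k by omega) hh7 hB1 hB2
        (B0 := 2000074 * spq (h + 1) * (10 ^ 6) ^ W m (era l') (h + 1))
        (fun b hb => Pool.Agent.Helper87.SL.Bw_lt (hj6 l' hu' (by rw [he]; exact g6)).2 le_rfl
          (le_trans (by norm_num) (rt_ge hb'10 (by omega)))
          (Pool.Agent.Helper27.T5.era_add_two hu' hb'10 (by omega)).1 hhk hb) ?_ ?_ hδ2
      · show 2000074 * spq (h + 1) * (10 ^ 6) ^ W m (era l') (h + 1) ≤
          (10 ^ 6) ^ (W m (era l) (1 + h) + W m (era l) (1 + h + 1))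
        rw [he, show 1 + h = h + 1 by omega, pow_add, mul_comm]
        apply Nat.mul_le_mul_left
        have a1 := Pool.Agent.Helper87.SL.spq_mono (show 1 ≤ h + 1 by omega)
          (show h + 1 ≤ k + 1 by omega)
        have a2 := hWbig (h + 1 + 1) (by omega)
        calc 2000074 * spq (h + 1) ≤ W m (era l) (h + 1 + 1) := by omega
          _ ≤ _ := (Nat.lt_pow_self (by norm_num : 1 < 10 ^ 6)).le
      · exact le_trans (by exact_mod_cast hJI) hIz)
    (fun w _ _ t => Pool.Agent.Helper83.T5.leaf_Bw_far hbig (by omega) he hhk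
      (hj5 l' l hlt he g5 hlast) w t)
    (CI := 2 * (mp m l' l).C * (172 * l / (l - l'))) (ε := Real.exp (-(l : ℝ)))
    (Real.exp_pos _).le (hj1 m k l l' hk hM hS hpd g1 h0 (by omega) hb0)
    (N := 20000 * l / W m (era l) (1 + h) + 1) (Nat.le_add_left 1 _)
  refine prG_iff_prLe.1 ?_
  refine PrG_mono ?_ ?_ key
  · rintro r hr ⟨n, hn⟩
    have hl4 := l_le_mul_W (m := m) (i := 3) (by omega) hb0 rfl (by omega)
    set x : ℝ := (l : ℝ) ^ ((3 : ℝ) / ((k + 2 : ℕ) : ℝ)) with hx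
    have hx1 : 1 ≤ x := Real.one_le_rpow hl1R (by positivity)
    have hxx : (l : ℝ) ^ (((771 : ℕ) : ℝ) / ((k + 2 : ℕ) : ℝ)) = x ^ 257 := by
      rw [hx, ← Real.rpow_natCast, ← Real.rpow_mul (Nat.cast_nonneg _)]
      congr 1
      push_cast
      ring
    have hnum := final_num (k := k) (l := l) (D := l - l') (Wh := W m (era l) (1 + h))
      (W3 := W m (era l) 3) (h := h) (x := x) (c := (mp m l' l).C)
      (CdP := Cd (prD m l' l 0 h (4 * FF m l 0))) hx1 (by exact_mod_cast hl4) hW3.le (by omega)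
      hW3h hWh0 hh2 Pool.Agent.Helper36.T5.mp_C_le (Cd_prD hhk)
    rw [hxx] at hn
    have hn2 := lt_of_le_of_lt hnum hn
    have hn3 : 2 * (mp m l' l).C * (172 * l / (l - l')) *
        ((20000 * l / W m (era l) (1 + h) + 1 + 1) ^ 2 ^ (4 * h) *
          (Cd (prD m l' l 0 h (4 * FF m l 0)) * Pool.Agent.Helper83.T5.CL k)) <
        Rp m k l l' (ext K r) n := by exact_mod_cast hn2
    refine ⟨n, ?_, hn3⟩
    have hpos : 0 < Rp m k l l' (ext K r) n := lt_of_le_of_lt (Nat.zero_le _) hn3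
    unfold Rp at hpos
    obtain ⟨q, hq⟩ := Finset.card_pos.1 hpos
    obtain ⟨hq1, hq2⟩ := mem_filter.1 hq
    obtain ⟨hq3, hq4⟩ := mem_product.1 hq1
    have hw : ∀ q, ext K r q < Mk (k + 2) q := fun q => ext_lt (Mk_pos m) hr q
    have b1 := (hl9 l (((le_max_right _ _).trans hl').trans hll) hu _ hw _ hq3).2
    have b2 := (hl9 l' ((le_max_right _ _).trans hl') hu' _ hw _ hq4).2
    have b1' : q.1 < XA m k (l + 1) := b1
    have b2' : q.2 < XA m k (l' + 1) := b2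
    omega
  · have hn1 : ((XA m k (l + 1) + XA m k (l' + 1) : ℕ) : ℝ) ≤ Real.exp (100 * l) := by
      have a1 := XA_le_exp (m := m) (k := k) (by omega) hbig hu hb0 hl1
      have a2 : XA m k (l' + 1) ≤ XA m k (l + 1) := XT_mono (TB_TA m k) (by omega) (by omega)
      have a3 : (XA m k (l' + 1) : ℝ) ≤ XA m k (l + 1) := by exact_mod_cast a2
      have a4 := two_exp_le hl1
      push_cast
      linarith
    have hfail := fail_num (h0 := h) (n := 20000 * l / W m (era l) (1 + h) + 1) (δ := δ)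
      (X := (l : ℝ)) (Y := 100 * l) (Nc := ((XA m k (l + 1) + XA m k (l' + 1) : ℕ) : ℝ))
      (w := (W m (era l) 1 : ℝ)) (by omega) hn1 ?_
    · have e1 := rpow_le_W3 (W3 := (W m (era l) 3 : ℝ)) hk hl1 (Nat.cast_nonneg _)
        (by exact_mod_cast l_le_mul_W (m := m) (i := 3) (by omega) hb0 rfl (by omega))
      have e2 : Real.exp (-(30 * (W m (era l) (h + 1) : ℝ))) ≤
          Real.exp (-((l : ℝ) ^ (2 / 5 : ℝ))) := by
        apply Real.exp_le_exp.2
        have e3 : (W m (era l) 3 : ℝ) ≤ W m (era l) (h + 1) := by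
          rw [show h + 1 = 1 + h by omega]
          exact_mod_cast hW3h
        have e4 : (0 : ℝ) ≤ W m (era l) 3 := Nat.cast_nonneg _
        linarith
      have e5 : Real.exp (-(l : ℝ)) ≤ Real.exp (-((l : ℝ) ^ (2 / 5 : ℝ))) := by
        apply Real.exp_le_exp.2
        have : (l : ℝ) ^ (2 / 5 : ℝ) ≤ (l : ℝ) ^ (1 : ℝ) :=
          Real.rpow_le_rpow_of_exponent_le hl1R (by norm_num)
        rw [Real.rpow_one] at this
        linarith
      have e6 : ((XA m k (l + 1) + XA m k (l' + 1) : ℕ) : ℝ) * ((3 * (h : ℝ) + 1) *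
          GG m (era l) 1 * Real.exp (-δ) ^ (20000 * l / W m (era l) (1 + h) + 1 + 1)) ≤
          Real.exp (-(l : ℝ)) := hfail
      linarith
    · have a1 := Nat.lt_div_mul_add (a := 20000 * l) hWh0
      have a2 : 20000 * l ≤ (20000 * l / W m (era l) (1 + h) + 1 + 1) *
          W m (era l) (1 + h) := by
        rw [add_mul, add_mul]
        omega
      have a3 : (20000 : ℝ) * l ≤ ((20000 * l / W m (era l) (1 + h) + 1 + 1 : ℕ) : ℝ) *
          W m (era l) (1 + h) := by exact_mod_cast a2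
      have a4 : 1024 * (W m (era l) 1 : ℝ) ≤ l := by
        exact_mod_cast hW1.trans hbl
      rw [hδ]
      have a5 : ((20000 * l / W m (era l) (1 + h) + 1 + 1 : ℕ) : ℝ) *
          ((W m (era l) (1 + h) : ℝ) / 100) =
          ((20000 * l / W m (era l) (1 + h) + 1 + 1 : ℕ) : ℝ) * W m (era l) (1 + h) / 100 := by
        ring
      rw [a5]
      linarith

end Pool.Agent.Helper1.T5
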